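import Pool.Agent.Y320.ST.Stm

/-!
Distortion at one point suffices (project ST, `S_ONEPT`).
-/

set_option autoImplicit false
open Filter Topology

namespace Pool.Agent.Y43.ST

open Pool.Agent.Y320.CM Pool.Agent.Y320.ST

theorem cr_pos' {a b c e : Sph} (h : D4 a b c e) : 0 < cr a b c e := by
  obtain ⟨h1, h2, h3, h4, h5, h6⟩ := h
  have := dist_pos.2 h1
  have := dist_pos.2 h6
  have := dist_pos.2 h2
  have := dist_pos.2 h5
  unfold cr
  positivity

theorem cr_swap {a b c e : Sph} (_h : D4 a b c e) : cr a c b e = (cr a b c e)⁻¹ := by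
  unfold cr
  rw [inv_div]

theorem D4_map' {a b c e : Sph} (h : D4 a b c e) {f : Sph → Sph} (hf : Function.Injective f) :
    D4 (f a) (f b) (f c) (f e) := by
  obtain ⟨h1, h2, h3, h4, h5, h6⟩ := h
  exact ⟨hf.ne h1, hf.ne h2, hf.ne h3, hf.ne h4, hf.ne h5, hf.ne h6⟩

theorem D4_swap {a b c e : Sph} (h : D4 a b c e) : D4 a c b e := by
  obtain ⟨h1, h2, h3, h4, h5, h6⟩ := h
  exact ⟨h2, h1, h3, h4.symm, h6, h5⟩

/-- `cr` is continuous in the first variable -/
theorem cr_tendsto' {u : Sph → Sph} (hu : Continuous u) {a b c e : Sph}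
    (h : D4 (u a) b c e) : Tendsto (fun x => cr (u x) b c e) (𝓝 a) (𝓝 (cr (u a) b c e)) := by
  unfold cr
  refine Tendsto.div (((hu.tendsto a).dist tendsto_const_nhds).mul tendsto_const_nhds)
    (((hu.tendsto a).dist tendsto_const_nhds).mul tendsto_const_nhds) ?_
  have := dist_pos.2 h.2.1
  have := dist_pos.2 h.2.2.2.2.1
  positivity

theorem onept : S_ONEPT := by
  intro G _ τ hA F hF hFi N hN x0 H
  have hinv : ∀ (g : G) (x : Sph), τ g⁻¹ (τ g x) = x := fun g x => by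
    rw [← hA.mul, inv_mul_cancel, hA.one]
  have hinv' : ∀ (g : G) (x : Sph), τ g (τ g⁻¹ x) = x := fun g x => by
    rw [← hA.mul, mul_inv_cancel, hA.one]
  have hτi : ∀ g : G, Function.Injective (τ g) := fun g =>
    Function.LeftInverse.injective (hinv g)
  -- points of the orbit
  have key1 : ∀ (t0 : ℝ), 0 < t0 → ∀ (h g : G) (b c e : Sph), D4 (τ h x0) b c e →
      cr (F (τ h x0)) (F b) (F c) (F e) * N t0 < 1 →
      cr (F (τ g (τ h x0))) (F (τ g b)) (F (τ g c)) (F (τ g e)) ≤ N (1 / t0) := by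
    intro t0 ht0 h g b c e hD hlt
    obtain ⟨b', hb'⟩ : ∃ b', b' = τ h⁻¹ b := ⟨_, rfl⟩
    obtain ⟨c', hc'⟩ : ∃ c', c' = τ h⁻¹ c := ⟨_, rfl⟩
    obtain ⟨e', he'⟩ : ∃ e', e' = τ h⁻¹ e := ⟨_, rfl⟩
    have eb : b = τ h b' := by rw [hb', hinv']
    have ec : c = τ h c' := by rw [hc', hinv']
    have ee : e = τ h e' := by rw [he', hinv']
    have hD0 : D4 x0 b' c' e' := by
      have h1 := D4_map' hD (hτi h⁻¹)
      rw [hinv, ← hb', ← hc', ← he'] at h1
      exact h1
    have hDF := D4_map' hD0 hFi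
    have hq := cr_pos' hDF
    have hp := cr_pos' (D4_map' hD hFi)
    have hq2 : cr (F x0) (F b') (F c') (F e') ≤ 1 / t0 := by
      by_contra hcon
      push Not at hcon
      have h1 : cr (F x0) (F c') (F b') (F e') ≤ t0 := by
        rw [cr_swap hDF]
        rw [one_div] at hcon
        exact (inv_le_comm₀ hq ht0).2 hcon.le
      have h2 := H h c' b' e' (D4_swap hD0) t0 h1
      rw [← eb, ← ec, ← ee, cr_swap (D4_map' hD hFi)] at h2
      have h3 : 1 ≤ cr (F (τ h x0)) (F b) (F c) (F e) * N t0 := by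
        have h4 := mul_le_mul_of_nonneg_left h2 hp.le
        rwa [mul_inv_cancel₀ hp.ne'] at h4
      linarith
    have h5 := H (g * h) b' c' e' hD0 _ hq2
    simp only [hA.mul] at h5
    rw [← eb, ← ec, ← ee] at h5
    exact h5
  -- general points
  have key2 : ∀ (t0 : ℝ), 0 < t0 → ∀ (g : G) (a b c e : Sph), D4 a b c e →
      cr (F a) (F b) (F c) (F e) * N t0 < 1 →
      cr (F (τ g a)) (F (τ g b)) (F (τ g c)) (F (τ g e)) ≤ N (1 / t0) := by
    intro t0 ht0 g a b c e hD hlt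
    by_contra hcon
    push Not at hcon
    have hDF := D4_map' hD hFi
    have hDg := D4_map' (D4_map' hD (hτi g)) hFi
    have c1 : ∀ᶠ x in 𝓝 a, cr (F x) (F b) (F c) (F e) * N t0 < 1 :=
      ((cr_tendsto' hF hDF).mul_const (N t0)).eventually (eventually_lt_nhds hlt)
    have c2 : ∀ᶠ x in 𝓝 a, N (1 / t0) < cr (F (τ g x)) (F (τ g b)) (F (τ g c)) (F (τ g e)) :=
      (cr_tendsto' (hF.comp (hA.cont g)) hDg).eventually (eventually_gt_nhds hcon)
    have c3 : ∀ᶠ x in 𝓝 a, x ≠ b := isOpen_ne.mem_nhds hD.1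
    have c4 : ∀ᶠ x in 𝓝 a, x ≠ c := isOpen_ne.mem_nhds hD.2.1
    have c5 : ∀ᶠ x in 𝓝 a, x ≠ e := isOpen_ne.mem_nhds hD.2.2.1
    obtain ⟨U, hU, hUo, haU⟩ := eventually_nhds_iff.1 (c1.and (c2.and (c3.and (c4.and c5))))
    obtain ⟨h, hh⟩ := hA.contr {x0} U hUo ⟨a, haU⟩
    obtain ⟨d1, d2, d3, d4, d5⟩ := hU _ (hh x0 (Finset.mem_singleton_self x0))
    have hD' : D4 (τ h x0) b c e := ⟨d3, d4, d5, hD.2.2.2.1, hD.2.2.2.2.1, hD.2.2.2.2.2⟩
    have := key1 t0 ht0 h g b c e hD' d1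
    linarith
  refine ⟨fun t => sSup {v | ∃ (g : G) (a b c e : Sph), D4 a b c e ∧
    cr (F a) (F b) (F c) (F e) ≤ t ∧
    v = cr (F (τ g a)) (F (τ g b)) (F (τ g c)) (F (τ g e))}, ?_, ?_⟩
  · intro T hT
    obtain ⟨t1, ht1, hNt1⟩ := hN T hT
    have hpos : 0 < 2 * (|N (1 / t1)| + 1) := by positivity
    refine ⟨1 / (2 * (|N (1 / t1)| + 1)), by positivity, ?_⟩
    refine Real.sSup_le ?_ hT.le
    rintro v ⟨g, a, b, c, e, hD, hle, rfl⟩
    have h1 : cr (F a) (F b) (F c) (F e) * N (1 / t1) < 1 := by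
      have hq := cr_pos' (D4_map' hD hFi)
      have h2 : cr (F a) (F b) (F c) (F e) * N (1 / t1) ≤
          cr (F a) (F b) (F c) (F e) * |N (1 / t1)| :=
        mul_le_mul_of_nonneg_left (le_abs_self _) hq.le
      have h3 : cr (F a) (F b) (F c) (F e) * |N (1 / t1)| ≤
          1 / (2 * (|N (1 / t1)| + 1)) * |N (1 / t1)| :=
        mul_le_mul_of_nonneg_right hle (abs_nonneg _)
      have h4 : 1 / (2 * (|N (1 / t1)| + 1)) * |N (1 / t1)| < 1 := by
        rw [one_div, inv_mul_lt_iff₀ hpos]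
        have := abs_nonneg (N (1 / t1))
        linarith
      linarith
    have h5 := key2 (1 / t1) (by positivity) g a b c e hD h1
    rw [one_div_one_div] at h5
    exact h5.trans hNt1
  · intro g a b c e hD t hle
    have hs : (0 : ℝ) < max t 1 := lt_max_of_lt_right one_pos
    obtain ⟨t0, ht0, hNt0⟩ := hN (1 / (2 * max t 1)) (by positivity)
    refine le_csSup ⟨N (1 / t0), ?_⟩ ⟨g, a, b, c, e, hD, hle, rfl⟩
    rintro v ⟨g', a', b', c', e', hD', hle', rfl⟩
    refine key2 t0 ht0 g' a' b' c' e' hD' ?_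
    have hq := cr_pos' (D4_map' hD' hFi)
    have h1 : cr (F a') (F b') (F c') (F e') * N t0 ≤
        cr (F a') (F b') (F c') (F e') * (1 / (2 * max t 1)) :=
      mul_le_mul_of_nonneg_left hNt0 hq.le
    have h2 : cr (F a') (F b') (F c') (F e') * (1 / (2 * max t 1)) ≤
        max t 1 * (1 / (2 * max t 1)) :=
      mul_le_mul_of_nonneg_right (hle'.trans (le_max_left _ _)) (by positivity)
    have h3 : max t 1 * (1 / (2 * max t 1)) = 1 / 2 := by
      field_simp
    linarith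

end Pool.Agent.Y43.ST
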